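import Pool.Agent.ZES.StmtsB

/-!
ZES, row PAR: parameter integrals of entire functions are entire.
-/

namespace Pool.Agent.ZES.H36

open MeasureTheory Topology Metric

theorem par (hCau : CauStmt) : ParStmt := by
  intro V _ _ _ g hg A B x₀
  borelize V
  have hproper : ProperSpace V := FiniteDimensional.proper ℂ V
  have hproper2 : ProperSpace (V →L[ℂ] ℂ) := FiniteDimensional.proper ℂ (V →L[ℂ] ℂ)
  have hgc : Continuous g := hg.continuous
  set R : ℝ := (‖A‖ + ‖B‖) * (‖x₀‖ + 1) with hR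
  have hK : IsCompact (closedBall (0 : V) (R + 1)) := isCompact_closedBall _ _
  obtain ⟨C, hC⟩ := hK.exists_bound_of_continuousOn (f := g) hgc.continuousOn
  have hR0 : 0 ≤ R := by positivity
  have hC0 : 0 ≤ C := le_trans (norm_nonneg _) (hC 0 (by simp; linarith))
  have hfd : ∀ y : V, ‖y‖ ≤ R → ‖fderiv ℂ g y‖ ≤ C := by
    intro y hy
    refine ContinuousLinearMap.opNorm_le_bound _ hC0 ?_
    intro v
    refine hCau V g hg y C ?_ v
    intro z hz
    apply hC
    rw [mem_closedBall_zero_iff]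
    calc ‖z‖ = ‖(z - y) + y‖ := by rw [sub_add_cancel]
      _ ≤ ‖z - y‖ + ‖y‖ := norm_add_le _ _
      _ ≤ R + 1 := by linarith
  have hcont : ∀ x : V, Continuous (fun t : ℝ => g (A x + (t : ℂ) • B x)) := by
    intro x
    refine hgc.comp (continuous_const.add ?_)
    exact (Complex.continuous_ofReal).smul continuous_const
  have hcurve : Continuous (fun t : ℝ => A x₀ + (t : ℂ) • B x₀) :=
    continuous_const.add ((Complex.continuous_ofReal).smul continuous_const)
  have key := intervalIntegral.hasFDerivAt_integral_of_dominated_of_fderiv_le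
    (𝕜 := ℂ) (μ := volume) (a := (0 : ℝ)) (b := 1) (s := ball x₀ 1)
    (F := fun (x : V) (t : ℝ) => g (A x + (t : ℂ) • B x))
    (F' := fun (x : V) (t : ℝ) => (fderiv ℂ g (A x + (t : ℂ) • B x)).comp (A + (t : ℂ) • B))
    (x₀ := x₀) (bound := fun _ => C * (‖A‖ + ‖B‖))
    (ball_mem_nhds x₀ one_pos)
    (Filter.Eventually.of_forall fun x => (hcont x).aestronglyMeasurable)
    ((hcont x₀).intervalIntegrable _ _)
    ?_ ?_ ?_ ?_
  · exact key.differentiableAt
  · have h1 : Measurable (fun t : ℝ => fderiv ℂ g (A x₀ + (t : ℂ) • B x₀)) :=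
      (measurable_fderiv ℂ g).comp hcurve.measurable
    have h2 : StronglyMeasurable (fun t : ℝ => fderiv ℂ g (A x₀ + (t : ℂ) • B x₀)) :=
      h1.stronglyMeasurable
    have h3 : StronglyMeasurable (fun t : ℝ => (A + (t : ℂ) • B : V →L[ℂ] V)) :=
      (continuous_const.add ((Complex.continuous_ofReal).smul continuous_const)).stronglyMeasurable
    have h4 : Continuous (fun p : (V →L[ℂ] ℂ) × (V →L[ℂ] V) => p.1.comp p.2) :=
      continuous_fst.clm_comp continuous_snd
    exact (h4.comp_stronglyMeasurable (h2.prodMk h3)).aestronglyMeasurable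
  · refine Filter.Eventually.of_forall ?_
    intro t ht x hx
    have ht' : t ∈ Set.Ioc (0 : ℝ) 1 := by
      rwa [Set.uIoc_of_le (zero_le_one)] at ht
    have htn : ‖(t : ℂ)‖ ≤ 1 := by
      rw [Complex.norm_real, Real.norm_eq_abs, abs_of_pos ht'.1]
      exact ht'.2
    have hxn : ‖x‖ ≤ ‖x₀‖ + 1 := by
      have h1 : ‖x - x₀‖ < 1 := by
        rw [← dist_eq_norm]
        exact hx
      calc ‖x‖ = ‖(x - x₀) + x₀‖ := by rw [sub_add_cancel]
        _ ≤ ‖x - x₀‖ + ‖x₀‖ := norm_add_le _ _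
        _ ≤ ‖x₀‖ + 1 := by linarith
    have hy : ‖A x + (t : ℂ) • B x‖ ≤ R := by
      calc ‖A x + (t : ℂ) • B x‖ ≤ ‖A x‖ + ‖(t : ℂ) • B x‖ := norm_add_le _ _
        _ ≤ ‖A‖ * ‖x‖ + 1 * (‖B‖ * ‖x‖) := by
          rw [norm_smul]
          exact add_le_add (A.le_opNorm x)
            (mul_le_mul htn (B.le_opNorm x) (norm_nonneg _) zero_le_one)
        _ = (‖A‖ + ‖B‖) * ‖x‖ := by ring
        _ ≤ R := mul_le_mul_of_nonneg_left hxn (by positivity)
    have hAB : ‖A + (t : ℂ) • B‖ ≤ ‖A‖ + ‖B‖ := by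
      calc ‖A + (t : ℂ) • B‖ ≤ ‖A‖ + ‖(t : ℂ) • B‖ := norm_add_le _ _
        _ ≤ ‖A‖ + 1 * ‖B‖ := by
          rw [norm_smul]
          exact add_le_add le_rfl (mul_le_mul_of_nonneg_right htn (norm_nonneg _))
        _ = ‖A‖ + ‖B‖ := by ring
    calc ‖(fderiv ℂ g (A x + (t : ℂ) • B x)).comp (A + (t : ℂ) • B)‖
        ≤ ‖fderiv ℂ g (A x + (t : ℂ) • B x)‖ * ‖A + (t : ℂ) • B‖ :=
          ContinuousLinearMap.opNorm_comp_le _ _
      _ ≤ C * (‖A‖ + ‖B‖) := mul_le_mul (hfd _ hy) hAB (norm_nonneg _) hC0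
  · exact intervalIntegrable_const
  · refine Filter.Eventually.of_forall ?_
    intro t _ x _
    have h1 : HasFDerivAt g (fderiv ℂ g (A x + (t : ℂ) • B x)) (A x + (t : ℂ) • B x) :=
      (hg _).hasFDerivAt
    have h2 : HasFDerivAt (fun x : V => A x + (t : ℂ) • B x) (A + (t : ℂ) • B) x :=
      (A.hasFDerivAt).add ((B.hasFDerivAt).const_smul (t : ℂ))
    exact h1.comp x h2

end Pool.Agent.ZES.H36
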